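import Pool.Agent.H70.QR.Fail
import Pool.Agent.H70.QR.Perm
import Pool.Agent.H70.QR.Inf3

set_option autoImplicit false

/-!
# Extended quadratic residue codes without double circulant form: infinitely many primes

For every prime `p ≡ 17 mod 24` for which the system `e⁴ = e² + 1`, `Z⁴ = 27 (e² + 2)` is solvable
modulo `p`, both circulants `L` and `R` of every codeword of the extended binary quadratic residue
code are singular, for every element of `PSL₂(p)` with two cycles of length `(p+1)/2`. The prime
`89` is of this form, and there are infinitely many such primes.

Idea of the proof. Let `K = GF(p²)` and let `T` be the group of order `k = (p+1)/2` of elements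
of norm one. The two cycles of `π` are the images in the projective line of `T u` and `T ρ u`,
`ρ^p = -ρ`. For an odd divisor `m` of `k`, the word supported on one cycle with support
`{i : i mod m ∈ {0, 1}}` is orthogonal to the code if and only if the products of the differences
`x - b` over its support are squares or nonsquares in the appropriate way. These products are
explicit: a product over a coset of the `n`-th roots of unity, `n = k / m`, of the alternating form
`(u w^p - u^p w) / ρ` is again a value of this form. For `m = 3` this always produces a word on
one of the two cycles, for `m = 5` it does if `(1 + √5)/2` is a square, and the words for `m = 3`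
and `m = 5` live on different cycles exactly when `√5 (1 + √5) / 6` is a fourth power.

Infinitely many primes: the number field generated by a solution of `ζ⁴ = -1`, `e⁴ = e² + 1`,
`Z⁴ = 27 (e² + 2)` in `ℚ_[89]` is totally complex and has a prime ideal `P` of norm `89`. If `x`
is congruent to `1` modulo `3` and modulo the primes found so far, and is divisible by `P` exactly
once and by no other prime over `89`, then its norm is `≡ 1 mod 3`, hence `x` has a prime divisor
`Q` with norm `q^f ≡ 2 mod 3`, `f` odd, and square roots descend from `GF(q^f)` to `GF(q)`.
-/

open OnePoint Pool.QRC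

namespace Pool.Agent.Results.MP_6ea9cb_lc.InfinitelyManyPrimes

/-- The explicit family of primes. -/
def Family (p : ℕ) : Prop :=
  p.Prime ∧ p % 24 = 17 ∧ ∃ e Z : ZMod p, e ^ 4 = e ^ 2 + 1 ∧ Z ^ 4 = 27 * (e ^ 2 + 2)

universe u

/-- There are infinitely many primes `p ≡ 1 mod 8` (namely all those of an explicit infinite
family containing `89`) such that elements `π` of `PSL₂(p)` that are products of two disjoint
cycles of length `k = (p+1)/2` exist, and for every such `π` and every codeword `c` of the
extended binary quadratic residue code (for any choice of the primitive root `α`) both circulants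
`L` and `R` are singular over `GF(2)`. -/
theorem result :
    (∀ N : ℕ, ∃ p : ℕ, N < p ∧ Family p) ∧ Family 89 ∧
    ∀ (p : ℕ) [Fact p.Prime], Family p → ∀ (k : ℕ) [NeZero k], 2 * k = p + 1 →
      (∃ (π : Equiv.Perm (P1 p)) (l r : Fin k → P1 p), InPSL p π ∧ IsTwoCycles π l r) ∧
      ∀ (F : Type u) [Field F] [Algebra (ZMod 2) F] (α : F), IsPrimitiveRoot α p →
        ∀ (π : Equiv.Perm (P1 p)) (l r : Fin k → P1 p), InPSL p π → IsTwoCycles π l r →
          ∀ c ∈ ExtQRCode p α, ¬ IsUnit (block π l c) ∧ ¬ IsUnit (block π r c) := by
  refine ⟨fun N => ?_, ⟨by norm_num, by norm_num, 13, 4, by decide, by decide⟩, ?_⟩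
  · obtain ⟨q, h1, h2, h3, h4⟩ := infinite_family N
    exact ⟨q, h1, h2, h3, h4⟩
  · intro p _ hp k _ hk
    obtain ⟨-, h24, e, Z, he, hZ⟩ := hp
    refine ⟨exists_perm (by omega) hk, ?_⟩
    intro F _ _ α hα π l r hπ h c hc
    exact fail h24 he hZ hα hπ h hc

end Pool.Agent.Results.MP_6ea9cb_lc.InfinitelyManyPrimes
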